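import Pool.Agent.H11.NZ.Targets
import Pool.Agent.H50.NY.A5

/-!
# Module A5X of the board nz_modules (MP_9b2842_al)
-/

set_option autoImplicit false

open Equiv (Perm)
open Pool.Agent.H11.NZ
open Pool.Agent.H11.NY

namespace Pool.Agent.H94.NZ.A5X

theorem pf_a5x : T_STX → T_DC → T_A5X := by
  intro hSTX hDC L Ω Λ _ _ _ _ _ _ ψ X hcard hX K V _ _ _ ρ W hSys f hf e q p a h
    hpair hrel c v
  classical
  obtain ⟨hind, htop, hW, -, -⟩ := hSys
  have hsurj : Function.Surjective ψ := by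
    intro σ
    have h1 : σ ∈ X.map ψ := by rw [hX.2.1]; exact Subgroup.mem_top σ
    obtain ⟨x, -, hx⟩ := h1
    exact ⟨x, hx⟩
  obtain ⟨hq, hq5, hqe, hp, hpe, haq, hcomm, hor, ha1, hha, hB⟩ := hpair
  -- the blocks
  let VV : Set Ω → Submodule K V := fun S => ⨆ x ∈ {x : Λ | f x ∈ S}, W x
  have hVV : ∀ S : Set Ω, VV S = ⨆ x ∈ {x : Λ | f x ∈ S}, W x := fun S => rfl
  have hmapV : ∀ (y : L) (S T : Set Ω), (∀ ω ∈ S, (ψ y : Perm Ω) ω ∈ T) →
      ∀ v ∈ VV S, ρ y v ∈ VV T := by
    intro y S T hST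
    have : VV S ≤ (VV T).comap (ρ y) := by
      rw [hVV]
      refine iSup₂_le fun x hx => ?_
      intro w hw
      rw [Submodule.mem_comap]
      have h1 := hW y x w hw
      have h2 : y • x ∈ {x : Λ | f x ∈ T} := by
        change f (y • x) ∈ T
        rw [hf]
        exact hST _ hx
      exact (le_iSup₂_of_le (f := fun x (_ : x ∈ {x : Λ | f x ∈ T}) => W x) (y • x) h2 le_rfl) h1
    intro v hv
    exact this hv
  have hdisj : ∀ S T : Set Ω, Disjoint S T → Disjoint (VV S) (VV T) := by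
    intro S T hST
    refine hind.disjoint_biSup_biSup ?_
    rw [Set.disjoint_left]
    intro x hx hx'
    exact (Set.disjoint_left.1 hST) hx hx'
  have hWV : ∀ (x : Λ) (w : V), w ∈ W x → w ∈ VV {f x} := by
    intro x w hw
    exact (le_iSup₂_of_le (f := fun y (_ : y ∈ {y : Λ | f y ∈ ({f x} : Set Ω)}) => W y) x
      (by simp) le_rfl) hw
  -- actions
  have hmul : ∀ (x y : L) (v : V), ρ (x * y) v = ρ x (ρ y v) := by
    intro x y v
    rw [map_mul]
    rfl
  have hone : ∀ v : V, ρ 1 v = v := by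
    intro v
    rw [map_one]
    rfl
  have hψmul : ∀ (x y : L) (ω : Ω), (ψ (x * y) : Perm Ω) ω = (ψ x : Perm Ω) ((ψ y : Perm Ω) ω) := by
    intro x y ω
    rw [map_mul]
    rfl
  have hψone : ∀ ω : Ω, (ψ 1 : Perm Ω) ω = ω := by
    intro ω
    rw [map_one]
    rfl
  have hψpow : ∀ j : ℕ, ((ψ (a ^ j) : alternatingGroup Ω) : Perm Ω) = (ψ a : Perm Ω) ^ j := by
    intro j
    rw [map_pow]
    rfl
  -- the point moved by `a`
  have hamove : ∃ ω₁ : Ω, (ψ a : Perm Ω) ω₁ ≠ ω₁ := by
    have h1 := hB 1 0 (by simpa using ha1)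
    have h2 : (ψ (a ^ 1 * h ^ 0) : Perm Ω).support.Nonempty := by
      rw [← Finset.card_pos]
      omega
    obtain ⟨ω, hω⟩ := h2
    refine ⟨ω, ?_⟩
    simpa using hω
  obtain ⟨ω₁, hω₁⟩ := hamove
  have hσq : (ψ a : Perm Ω) ^ q = 1 := by
    rw [← hψpow, haq, map_one]
    rfl
  -- pointwise fixing at `ω₁`
  have hfix1 : ∀ Δ : Finset Ω, ω₁ ∉ Δ → ∀ D : Subgroup L, DOn ψ X Δ D → ∀ d ∈ D,
      ∀ v ∈ VV {ω₁}, ρ d v = v := by
    -- the relation
    have hkey : ∀ v ∈ VV {ω₁},
        (∑ j ∈ (Finset.range q).filter (fun j => (ψ (h * a ^ j) : Perm Ω) ω₁ = ω₁),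
          ρ (h * a ^ j) v) = v := by
      intro v hv
      have hr := hrel v
      rw [map_sum] at hr
      have hr' : ∑ j ∈ Finset.range q, ρ (h * a ^ j) v = ∑ j ∈ Finset.range q, ρ (a ^ j) v := by
        rw [← hr]
        refine Finset.sum_congr rfl fun j _ => hmul _ _ _
      have hsplit : ∀ g : ℕ → L, (∑ j ∈ Finset.range q, ρ (g j) v) -
          (∑ j ∈ (Finset.range q).filter (fun j => (ψ (g j) : Perm Ω) ω₁ = ω₁), ρ (g j) v) ∈
            VV {ω | ω ≠ ω₁} := by
        intro g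
        rw [← Finset.sum_filter_add_sum_filter_not (Finset.range q)
          (fun j => (ψ (g j) : Perm Ω) ω₁ = ω₁) (fun j => ρ (g j) v), add_sub_cancel_left]
        refine Submodule.sum_mem _ fun j hj => ?_
        rw [Finset.mem_filter] at hj
        refine hmapV (g j) {ω₁} {ω | ω ≠ ω₁} ?_ v hv
        intro ω hω
        rw [Set.mem_singleton_iff] at hω
        rw [hω]
        exact hj.2
      have hin : ∀ g : ℕ → L,
          (∑ j ∈ (Finset.range q).filter (fun j => (ψ (g j) : Perm Ω) ω₁ = ω₁), ρ (g j) v) ∈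
            VV {ω₁} := by
        intro g
        refine Submodule.sum_mem _ fun j hj => ?_
        rw [Finset.mem_filter] at hj
        refine hmapV (g j) {ω₁} {ω₁} ?_ v hv
        intro ω hω
        rw [Set.mem_singleton_iff] at hω
        rw [hω]
        exact hj.2
      have hzero : (Finset.range q).filter (fun j => (ψ (a ^ j) : Perm Ω) ω₁ = ω₁) = {0} := by
        ext j
        rw [Finset.mem_filter, Finset.mem_range, Finset.mem_singleton]
        constructor
        · rintro ⟨hj, hj'⟩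
          refine Pool.Agent.H50.NY.A5.pow_inj (ψ a : Perm Ω) q hq hσq ω₁ hω₁ j 0 hj hq.pos ?_
          rw [← hψpow, hj', pow_zero]
          rfl
        · rintro rfl
          refine ⟨hq.pos, ?_⟩
          rw [pow_zero]
          exact hψone ω₁
      have h1 := hsplit (fun j => h * a ^ j)
      have h2 := hsplit (fun j => a ^ j)
      have h3 := hin (fun j => h * a ^ j)
      have h4 := hin (fun j => a ^ j)
      beta_reduce at h1 h2 h3 h4
      rw [hzero, Finset.sum_singleton, pow_zero, hone] at h2 h4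
      have h5 := Submodule.sub_mem _ h2 h1
      rw [hr'] at h5
      have h6 : (∑ j ∈ (Finset.range q).filter (fun j => (ψ (h * a ^ j) : Perm Ω) ω₁ = ω₁),
          ρ (h * a ^ j) v) - v ∈ VV {ω | ω ≠ ω₁} := by
        have : (∑ j ∈ (Finset.range q).filter (fun j => (ψ (h * a ^ j) : Perm Ω) ω₁ = ω₁),
          ρ (h * a ^ j) v) - v = (∑ j ∈ Finset.range q, ρ (a ^ j) v - v) -
            (∑ j ∈ Finset.range q, ρ (a ^ j) v -
              ∑ j ∈ (Finset.range q).filter (fun j => (ψ (h * a ^ j) : Perm Ω) ω₁ = ω₁),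
                ρ (h * a ^ j) v) := by
          abel
        rw [this]
        exact h5
      have h7 := Submodule.sub_mem _ h3 h4
      have h8 : Disjoint (VV {ω₁}) (VV {ω | ω ≠ ω₁}) := by
        refine hdisj _ _ ?_
        rw [Set.disjoint_left]
        intro ω hω hω'
        exact hω' hω
      have h9 := (Submodule.disjoint_def.1 h8) _ h7 h6
      exact sub_eq_zero.1 h9
    by_cases hex : ∃ j, j < q ∧ (ψ (h * a ^ j) : Perm Ω) ω₁ = ω₁
    · obtain ⟨j₀, hj₀, hj₀'⟩ := hex
      have hfilt : (Finset.range q).filter (fun j => (ψ (h * a ^ j) : Perm Ω) ω₁ = ω₁) = {j₀} := by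
        ext j
        rw [Finset.mem_filter, Finset.mem_range, Finset.mem_singleton]
        constructor
        · rintro ⟨hj, hj'⟩
          refine Pool.Agent.H50.NY.A5.pow_inj (ψ a : Perm Ω) q hq hσq ω₁ hω₁ j j₀ hj hj₀ ?_
          rw [← hψpow, ← hψpow]
          have : (ψ h : Perm Ω) ((ψ (a ^ j) : Perm Ω) ω₁) =
              (ψ h : Perm Ω) ((ψ (a ^ j₀) : Perm Ω) ω₁) := by
            rw [← hψmul, ← hψmul, hj', hj₀']
          exact (ψ h : Perm Ω).injective this
        · rintro rfl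
          exact ⟨hj₀, hj₀'⟩
      have hx0 : ∀ v ∈ VV {ω₁}, ρ (h * a ^ j₀) v = v := by
        intro v hv
        have := hkey v hv
        rw [hfilt, Finset.sum_singleton] at this
        exact this
      let C : Subgroup L :=
        { carrier := {x | (ψ x : Perm Ω) ω₁ = ω₁ ∧ ∀ v ∈ VV {ω₁}, ρ x v = v}
          mul_mem' := by
            rintro x y ⟨hx1, hx2⟩ ⟨hy1, hy2⟩
            refine ⟨?_, ?_⟩
            · rw [hψmul, hy1, hx1]
            · intro v hv
              rw [hmul, hy2 v hv, hx2 v hv]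
          one_mem' := ⟨hψone ω₁, fun v _ => hone v⟩
          inv_mem' := by
            rintro x ⟨hx1, hx2⟩
            refine ⟨?_, ?_⟩
            · have h1 : (ψ (x⁻¹ * x) : Perm Ω) ω₁ = ω₁ := by rw [inv_mul_cancel]; exact hψone ω₁
              rw [hψmul, hx1] at h1
              exact h1
            · intro v hv
              have h1 : ρ (x⁻¹ * x) v = v := by rw [inv_mul_cancel]; exact hone v
              rw [hmul, hx2 v hv] at h1
              exact h1 }
      have hCmem : ∀ x : L, x ∈ C ↔ ((ψ x : Perm Ω) ω₁ = ω₁ ∧ ∀ v ∈ VV {ω₁}, ρ x v = v) :=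
        fun x => Iff.rfl
      have hC := hSTX L Ω ψ X hcard hX ω₁ C (fun x hx => hx.1) ?_ ?_
      · intro Δ hΔ D hD d hd v hv
        exact ((hCmem d).1 (hC Δ hΔ D hD hd)).2 v hv
      · intro y _ hy x hx
        rw [hCmem] at hx ⊢
        have hyinv : (ψ y⁻¹ : Perm Ω) ω₁ = ω₁ := by
          have h1 : (ψ (y⁻¹ * y) : Perm Ω) ω₁ = ω₁ := by rw [inv_mul_cancel]; exact hψone ω₁
          rw [hψmul, hy] at h1
          exact h1
        refine ⟨?_, ?_⟩
        · rw [hψmul, hψmul, hyinv, hx.1, hy]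
        · intro v hv
          have h1 : ρ y⁻¹ v ∈ VV {ω₁} := by
            refine hmapV y⁻¹ {ω₁} {ω₁} ?_ v hv
            intro ω hω
            rw [Set.mem_singleton_iff] at hω
            rw [hω]
            exact hyinv
          rw [hmul, hmul, hx.2 _ h1, ← hmul, mul_inv_cancel, hone]
      · refine ⟨h * a ^ j₀, (hCmem _).2 ⟨hj₀', hx0⟩, ?_⟩
        intro hψ1
        have hne : a ^ j₀ * h ^ 1 ≠ 1 := by
          intro h1
          apply hha
          rw [pow_one] at h1
          have : h = (a ^ j₀)⁻¹ := by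
            rw [eq_comm, inv_eq_iff_mul_eq_one]
            exact h1
          rw [this]
          exact Subgroup.inv_mem _ (Subgroup.pow_mem _ (Subgroup.mem_zpowers a) j₀)
        have h1 := hB j₀ 1 hne
        have hcomm' : a ^ j₀ * h ^ 1 = h * a ^ j₀ := by
          rw [pow_one]
          exact (Commute.pow_left (show Commute a h from hcomm) j₀)
        rw [hcomm', hψ1] at h1
        simp at h1
    · -- no such j
      intro Δ hΔ D hD d hd v hv
      have h1 := hkey v hv
      have hemp : (Finset.range q).filter (fun j => (ψ (h * a ^ j) : Perm Ω) ω₁ = ω₁) = ∅ := by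
        rw [Finset.filter_eq_empty_iff]
        intro j hj hj'
        exact hex ⟨j, Finset.mem_range.1 hj, hj'⟩
      rw [hemp, Finset.sum_empty] at h1
      rw [← h1, map_zero]
  -- transport to every point
  have htrans : ∀ ω : Ω, ∃ y : L, (ψ y : Perm Ω) ω₁ = ω := by
    intro ω
    have : MulAction.IsPretransitive (alternatingGroup Ω) Ω := by
      apply alternatingGroup.isPretransitive_of_three_le_card
      rw [Nat.card_eq_fintype_card]
      omega
    obtain ⟨σ, hσ⟩ := this.exists_smul_eq ω₁ ω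
    obtain ⟨y, hy⟩ := hsurj σ
    refine ⟨y, ?_⟩
    rw [hy]
    exact hσ
  have hfix : ∀ (ω : Ω) (Δ : Finset Ω), ω ∉ Δ → ∀ D : Subgroup L, DOn ψ X Δ D → ∀ d ∈ D,
      ∀ v ∈ VV {ω}, ρ d v = v := by
    intro ω Δ hωΔ D hD d hd v hv
    obtain ⟨y, hy⟩ := htrans ω
    let D' : Subgroup L := D.map (MulAut.conj y⁻¹).toMonoidHom
    let Δ' : Finset Ω := Δ.image (ψ y⁻¹ : Perm Ω)
    have hyy : ∀ ω' : Ω, (ψ y : Perm Ω) ((ψ y⁻¹ : Perm Ω) ω') = ω' := by
      intro ω'
      rw [← hψmul, mul_inv_cancel]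
      exact hψone ω'
    have hyy' : ∀ ω' : Ω, (ψ y⁻¹ : Perm Ω) ((ψ y : Perm Ω) ω') = ω' := by
      intro ω'
      rw [← hψmul, inv_mul_cancel]
      exact hψone ω'
    have hΔ' : ω₁ ∉ Δ' := by
      intro hmem
      rw [Finset.mem_image] at hmem
      obtain ⟨ω', hω', h1⟩ := hmem
      apply hωΔ
      rw [← hy, ← h1, hyy]
      exact hω'
    have hD' : DOn ψ X Δ' D' := hDC L Ω ψ X hX.1 Δ D hD y⁻¹
    have hdD' : y⁻¹ * d * y ∈ D' := by
      refine Subgroup.mem_map.2 ⟨d, hd, ?_⟩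
      simp
    have hv' : ρ y⁻¹ v ∈ VV {ω₁} := by
      refine hmapV y⁻¹ {ω} {ω₁} ?_ v hv
      intro ω' hω'
      rw [Set.mem_singleton_iff] at hω'
      rw [hω', ← hy, hyy']
      rfl
    have h1 := hfix1 Δ' hΔ' D' hD' _ hdD' _ hv'
    have h2 : ρ y (ρ (y⁻¹ * d * y) (ρ y⁻¹ v)) = ρ d v := by
      rw [← hmul, ← hmul]
      congr 2
      group
    rw [h1, ← hmul, mul_inv_cancel, hone] at h2
    exact h2.symm
  -- conclusion
  intro Δ Δ' hΔΔ' _ _ D D' hD hD' d hd d' hd'
  let E : V →ₗ[K] V := ρ d * ρ d' - ρ d - ρ d' + 1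
  have hE : ∀ v, E v = ρ d (ρ d' v) - ρ d v - ρ d' v + v := by
    intro v
    rfl
  have hker : (⊤ : Submodule K V) ≤ LinearMap.ker E := by
    rw [← htop]
    refine iSup_le fun x => ?_
    intro w hw
    rw [LinearMap.mem_ker, hE]
    have hw' := hWV x w hw
    by_cases hx : f x ∈ Δ'
    · have hxΔ : f x ∉ Δ := fun h1 => (Finset.disjoint_left.1 hΔΔ') h1 hx
      have h1 := hfix (f x) Δ hxΔ D hD d hd w hw'
      have h2 : (ψ d' : Perm Ω) (f x) ∈ Δ' := by
        by_contra h3
        have h4 := hD'.1.2.1 d' hd' _ h3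
        have h5 := (ψ d' : Perm Ω).injective h4
        rw [h5] at h3
        exact h3 hx
      have h3 : (ψ d' : Perm Ω) (f x) ∉ Δ := fun h4 => (Finset.disjoint_left.1 hΔΔ') h4 h2
      have h4 : ρ d' w ∈ VV {(ψ d' : Perm Ω) (f x)} := by
        refine hmapV d' {f x} _ ?_ w hw'
        intro ω' hω'
        rw [Set.mem_singleton_iff] at hω'
        rw [hω']
        rfl
      have h5 := hfix _ Δ h3 D hD d hd _ h4
      rw [h1, h5]
      abel
    · have h1 := hfix (f x) Δ' hx D' hD' d' hd' w hw'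
      rw [h1]
      abel
  have := hker (Submodule.mem_top (x := v))
  rw [LinearMap.mem_ker, hE] at this
  exact this

end Pool.Agent.H94.NZ.A5X
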