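import Pool.Agent.H11.NZ.Targets
import Pool.Agent.H60.NY.AC
import Pool.Agent.H19.NY.AC5

/-!
# Module AC0 of the board nz_modules (MP_9b2842_al)
-/

set_option autoImplicit false

open Equiv (Perm)
open Pool.Agent.H11.NZ
open Pool.Agent.H11.NY

namespace Pool.Agent.H94.NZ.AC0

/-- every `q`-th root of unity is an eigenvalue of `u` -/
theorem all_roots (hAC4 : T_AC4) {K : Type} [Field K] [IsAlgClosed K]
    (d q cM cZ b e : ℕ) (u : Module.End K (Fin d → K)) (hq : q.Prime) (hqe : q ≤ e)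
    (hqK : (q : K) ≠ 0) (huq : u ^ q = 1) (hcM : cM = d * d * cZ)
    (hfin : Module.finrank K (Comm2 u 1) * q * cZ ≤ cM + q * b) (hsmall : e ^ 6 * b < cM)
    (α : K) (hα : α ^ q = 1) : ∃ v : Fin d → K, v ≠ 0 ∧ u v = α • v := by
  classical
  by_contra hno
  obtain ⟨Y, hYdef⟩ : ∃ Y : Finset (K × K),
      Y = (Polynomial.nthRoots q (1 : K)).toFinset ×ˢ {(1 : K)} := ⟨_, rfl⟩
  have hYcard : Y.card ≤ q := by
    rw [hYdef, Finset.card_product, Finset.card_singleton, mul_one]
    exact (Multiset.toFinset_card_le _).trans (Polynomial.card_nthRoots q 1)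
  have hYmem : (α, (1 : K)) ∈ Y := by
    rw [hYdef, Finset.mem_product, Multiset.mem_toFinset, Polynomial.mem_nthRoots hq.pos,
      Finset.mem_singleton]
    exact ⟨hα, rfl⟩
  have h11 : (1 : Module.End K (Fin d → K)) ^ 1 = 1 := one_pow 1
  have h1K : ((1 : ℕ) : K) ≠ 0 := by simp
  have hYall : ∀ x : K × K, x ∉ Y →
      Module.End.eigenspace u x.1 ⊓ Module.End.eigenspace (1 : Module.End K (Fin d → K)) x.2 =
        ⊥ := by
    rintro ⟨x, y⟩ hxy
    rw [eq_bot_iff]
    rintro v ⟨hv1, hv2⟩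
    rw [Submodule.mem_bot]
    by_contra hv0
    apply hxy
    have hv1' : u v = x • v := Module.End.mem_eigenspace_iff.1 hv1
    have hv2' : (1 : Module.End K (Fin d → K)) v = y • v := Module.End.mem_eigenspace_iff.1 hv2
    have h1 := Pool.Agent.H19.NY.AC5.pow_eq_one_of_eig huq hv0 hv1'
    have h2 := Pool.Agent.H19.NY.AC5.pow_eq_one_of_eig h11 hv0 hv2'
    rw [hYdef, Finset.mem_product, Multiset.mem_toFinset, Polynomial.mem_nthRoots hq.pos,
      Finset.mem_singleton]
    exact ⟨h1, by simpa using h2⟩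
  have hbot : Module.End.eigenspace u α ⊓
      Module.End.eigenspace (1 : Module.End K (Fin d → K)) (1 : K) = ⊥ := by
    rw [eq_bot_iff]
    rintro v ⟨hv1, hv2⟩
    rw [Submodule.mem_bot]
    by_contra hv0
    exact hno ⟨v, hv0, Module.End.mem_eigenspace_iff.1 hv1⟩
  have htop := Pool.Agent.H19.NY.AC5.joint_top u 1 (by rw [mul_one, one_mul]) q 1 hqK h1K huq h11
  have hX : (⨆ x ∈ Y.erase (α, (1 : K)), (Module.End.eigenspace u x.1 ⊓
      Module.End.eigenspace (1 : Module.End K (Fin d → K)) x.2)) = ⊤ := by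
    rw [eq_top_iff, ← htop]
    refine iSup_le fun x => ?_
    by_cases hx : x ∈ Y.erase (α, (1 : K))
    · exact le_iSup₂ (f := fun (x : K × K) (_ : x ∈ Y.erase (α, (1 : K))) =>
        (Module.End.eigenspace u x.1 ⊓
          Module.End.eigenspace (1 : Module.End K (Fin d → K)) x.2)) x hx
    · have hz : Module.End.eigenspace u x.1 ⊓
          Module.End.eigenspace (1 : Module.End K (Fin d → K)) x.2 = ⊥ := by
        by_cases hxY : x ∈ Y
        · have : x = (α, (1 : K)) := by
            by_contra hne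
            exact hx (Finset.mem_erase.2 ⟨hne, hxY⟩)
          rw [this]
          exact hbot
        · exact hYall x hxY
      rw [hz]
      exact bot_le
  have hdd := hAC4 K d u 1 (by rw [mul_one, one_mul]) (Y.erase (α, (1 : K))) hX
  rw [Finset.card_erase_of_mem hYmem] at hdd
  obtain ⟨D, hD⟩ : ∃ D, D = Module.finrank K (Comm2 u 1) := ⟨_, rfl⟩
  rw [← hD] at hdd hfin
  have hYpos : 1 ≤ Y.card := Finset.card_pos.2 ⟨_, hYmem⟩
  have h1 : d * d ≤ (q - 1) * D := hdd.trans (Nat.mul_le_mul_right D (by omega))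
  obtain ⟨M, hM⟩ : ∃ M, q = M + 1 := ⟨q - 1, by have := hq.pos; omega⟩
  have h2 : q * cM ≤ M * (cM + q * b) := by
    calc q * cM = (d * d) * (q * cZ) := by rw [hcM]; ring
      _ ≤ ((q - 1) * D) * (q * cZ) := Nat.mul_le_mul_right _ h1
      _ = M * (D * q * cZ) := by rw [hM, Nat.add_sub_cancel]; ring
      _ ≤ M * (cM + q * b) := Nat.mul_le_mul_left M hfin
  have h3 : cM ≤ M * (q * b) := by
    rw [hM] at h2 ⊢
    nlinarith
  have h4 : M * (q * b) ≤ e ^ 6 * b := by
    have h5 : M ≤ e := by omega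
    have h6 : M * (q * b) ≤ e * (e * b) :=
      Nat.mul_le_mul h5 (Nat.mul_le_mul_right b hqe)
    have he1 : 1 ≤ e := by have := hq.pos; omega
    have h8 : e ^ 2 ≤ e ^ 6 := Nat.pow_le_pow_right he1 (by norm_num)
    calc M * (q * b) ≤ e * (e * b) := h6
      _ = e ^ 2 * b := by ring
      _ ≤ e ^ 6 * b := Nat.mul_le_mul_right b h8
  omega

theorem pf_ac0 : T_AC1 → T_AC2 → T_AC3 → T_AC4 → T_AC0 := by
  intro hAC1 hAC2 hAC3 hAC4
  intro L _ _ K V _ _ _ _ _ ρ hV M Z r hM hZM hr hZ hcc hpow hcen e q a hq hqe hqr hqK haq ha1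
    hbound
  obtain ⟨d, A, Θ, hd, hcard, hA⟩ := hAC1 L K V ρ hV M Z hM hZM hZ hcc hcen
  have hqd : ¬ q ∣ d := Pool.Agent.H60.NY.AC.not_dvd M Z hZM r hr hcc hpow d q hq hqr hcard
  obtain ⟨u, w, huw, huq, -, hu, -⟩ := hAC2 L K V ρ M hM d A Θ hd hA q q a 1 hq hq hqd
    haq (by rw [mul_one, one_mul]) (Or.inl (one_pow q))
  clear huw w
  have hqpos := hq.pos
  have huU : IsUnit u := IsUnit.of_pow_eq_one huq hqpos.ne'
  have hepos : 0 < e := lt_of_lt_of_le hqpos hqe
  have he6 : 0 < e ^ 6 := pow_pos hepos 6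
  have hMpos : 0 < Nat.card M := Nat.card_pos
  have hclos : Subgroup.closure {a, (1 : L)} = Subgroup.zpowers a := by
    apply le_antisymm
    · rw [Subgroup.closure_le]
      rintro x hx
      rcases hx with rfl | hx
      · exact Subgroup.mem_zpowers x
      · rw [Set.mem_singleton_iff] at hx
        rw [hx]
        exact Subgroup.one_mem _
    · rw [Subgroup.zpowers_le]
      exact Subgroup.subset_closure (Set.mem_insert _ _)
  have hcardz : Nat.card (Subgroup.closure {a, (1 : L)}) = q := by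
    rw [hclos, Nat.card_zpowers]
    have : Fact q.Prime := ⟨hq⟩
    exact orderOf_eq_prime haq ha1
  have hb1 : ∀ t ∈ Subgroup.closure {a, (1 : L)}, t ≠ 1 →
      Nat.card {x : L // x ∈ M ∧ t * x * t⁻¹ * x⁻¹ ∈ Z} ≤ (Nat.card M - 1) / e ^ 6 := by
    intro t ht ht1
    rw [hclos] at ht
    have h1 := hbound t ht ht1
    rw [Nat.le_div_iff_mul_le he6]
    rw [mul_comm]
    omega
  have hb2 : e ^ 6 * ((Nat.card M - 1) / e ^ 6) < Nat.card M := by
    have := Nat.mul_div_le (Nat.card M - 1) (e ^ 6)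
    omega
  have h3 := hAC3 L K V ρ M Z hM hZM hZ hcc d A Θ hd hcard hA a 1 (by rw [mul_one, one_mul])
    u 1 huU isUnit_one hu (by
      intro y y' hyy
      rw [map_one, mul_one, one_mul] at hyy
      have : y' = y := Subtype.ext hyy
      rw [this, mul_one, one_mul]) _ hb1
  rw [hcardz] at h3
  have h5 := all_roots hAC4 d q (Nat.card M) (Nat.card Z) _ e u hq hqe hqK huq hcard h3 hb2
  clear h3 hb1 hb2 hbound
  -- inverses
  obtain ⟨ui, hui1, hui2⟩ : ∃ ui : Module.End K (Fin d → K), u * ui = 1 ∧ ui * u = 1 := by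
    obtain ⟨x, hx⟩ := huU
    exact ⟨x.inv, by rw [← hx]; exact x.val_inv, by rw [← hx]; exact x.inv_val⟩
  have ra := Pool.Agent.H60.NY.AC.rel_one ρ M hM A Θ hA a u ui hui1 hu
  obtain ⟨U, hU⟩ : ∃ U : A, U = Θ.symm u := ⟨_, rfl⟩
  obtain ⟨U', hU'⟩ : ∃ U' : A, U' = Θ.symm ui := ⟨_, rfl⟩
  rw [← hU, ← hU'] at ra
  have UU' : (U : Module.End K V) * U' = 1 := by
    have : U * U' = 1 := by rw [hU, hU', ← map_mul, hui1, map_one]
    exact congrArg (fun z : A => (z : Module.End K V)) this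
  have U'U : (U' : Module.End K V) * U = 1 := by
    have : U' * U = 1 := by rw [hU, hU', ← map_mul, hui2, map_one]
    exact congrArg (fun z : A => (z : Module.End K V)) this
  obtain ⟨ta, hta⟩ : ∃ ta : Module.End K V, ta = U' * ρ a := ⟨_, rfl⟩
  have ta_comm : ∀ y : A, ta * (y : Module.End K V) = y * ta := by
    intro y
    rw [hta, mul_assoc, ra y]
    calc (U' : Module.End K V) * (U * y * U' * ρ a) = (U' * U) * y * U' * ρ a := by
          simp only [mul_assoc]
      _ = y * (U' * ρ a) := by rw [U'U, one_mul, mul_assoc]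
  have Uta : (U : Module.End K V) * ta = ρ a := by
    rw [hta, ← mul_assoc, UU', one_mul]
  have raU' : ρ a * (U' : Module.End K V) = U' * ρ a := by
    rw [ra U', UU', one_mul]
  have hui_q : ui ^ q = 1 := by
    have hcu : Commute ui u := hui2.trans hui1.symm
    have h1 : (ui * u) ^ q = ui ^ q * u ^ q := hcu.mul_pow q
    rw [hui2, one_pow, huq, mul_one] at h1
    exact h1.symm
  have U'q : (U' : Module.End K V) ^ q = 1 := by
    have : U' ^ q = 1 := by rw [hU', ← map_pow, hui_q, map_one]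
    exact congrArg (fun z : A => (z : Module.End K V)) this
  have taq : ta ^ q = 1 := by
    have hc : Commute (U' : Module.End K V) (ρ a) := raU'.symm
    rw [hta, hc.mul_pow, U'q, ← map_pow, haq, map_one, one_mul]
  obtain ⟨v0, η, -, hv0, hη, -⟩ := Pool.Agent.H60.NY.AC.exists_common hV ta ta rfl
  have hηq : η ^ q = 1 := Pool.Agent.H19.NY.AC5.pow_eq_one_of_eig taq hv0 hη
  have hη0 : η ≠ 0 := by
    rintro rfl
    rw [zero_pow hqpos.ne'] at hηq
    exact zero_ne_one hηq
  obtain ⟨v', hv', huv⟩ := h5 η⁻¹ (by rw [inv_pow, hηq, inv_one])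
  obtain ⟨i0, hi0⟩ : ∃ i, v' i ≠ 0 := by
    by_contra hcon
    push Not at hcon
    exact hv' (funext hcon)
  obtain ⟨y1, hy1⟩ := Pool.Agent.H60.NY.AC.exists_move A Θ v' i0 hi0 v0 hv0
  obtain ⟨y, hy⟩ : ∃ y : A, y = Θ.symm ((LinearMap.proj i0 :
    (Fin d → K) →ₗ[K] K).smulRight v') := ⟨_, rfl⟩
  rw [← hy] at hy1
  have Uy : (U : Module.End K V) * y = η⁻¹ • (y : Module.End K V) := by
    have h1 : U * y = η⁻¹ • y := by
      apply Θ.injective
      rw [map_mul, map_smul, hU, hy, AlgEquiv.apply_symm_apply, AlgEquiv.apply_symm_apply]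
      apply LinearMap.ext
      intro x
      rw [Module.End.mul_apply, LinearMap.smulRight_apply, map_smul, huv, LinearMap.smul_apply,
        LinearMap.smulRight_apply, smul_comm]
    exact congrArg (fun z : A => (z : Module.End K V)) h1
  obtain ⟨v, hv⟩ : ∃ v : V, v = (y : Module.End K V) ((y1 : Module.End K V) v0) := ⟨_, rfl⟩
  rw [← hv] at hy1
  have tav : ta v = η • v := by
    have h1 : ta ((y : Module.End K V) ((y1 : Module.End K V) v0)) =
        (y : Module.End K V) ((y1 : Module.End K V) (ta v0)) := by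
      have h2 := congrArg (fun f : Module.End K V => f ((y1 : Module.End K V) v0)) (ta_comm y)
      have h3 := congrArg (fun f : Module.End K V => f v0) (ta_comm y1)
      simp only [Module.End.mul_apply] at h2 h3
      rw [h2, h3]
    rw [hv, h1, hη, map_smul, map_smul]
  have Uv : (U : Module.End K V) v = η⁻¹ • v := by
    have h2 := congrArg (fun f : Module.End K V => f ((y1 : Module.End K V) v0)) Uy
    simp only [Module.End.mul_apply, LinearMap.smul_apply] at h2
    rw [hv, h2]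
  refine ⟨v, hy1, ?_⟩
  rw [← Uta, Module.End.mul_apply, tav, map_smul, Uv, smul_smul, mul_inv_cancel₀ hη0,
    one_smul]

end Pool.Agent.H94.NZ.AC0
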