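import Pool.Agent.H11.NZ.Targets
import Pool.Agent.H50.NY.A5

/-!
# Module AIX of the board nz_modules (MP_9b2842_al)
-/

set_option autoImplicit false

open Equiv (Perm)
open Pool.Agent.H11.NZ
open Pool.Agent.H11.NY

namespace Pool.Agent.H94.NZ.AIX

/-- powers of an element of prime order moving a point -/
theorem pow_inj {L Λ : Type} [Group L] [MulAction L Λ] (a : L) (q : ℕ) (hq : q.Prime)
    (ha : a ^ q = 1) (i : Λ) (hi : a • i ≠ i) (j k : ℕ) (hj : j < q) (hk : k < q)
    (hjk : (a ^ j) • i = (a ^ k) • i) : j = k := by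
  classical
  have h1 : (MulAction.toPermHom L Λ a) ^ q = 1 := by rw [← map_pow, ha, map_one]
  refine Pool.Agent.H50.NY.A5.pow_inj (MulAction.toPermHom L Λ a) q hq h1 i hi j k hj hk ?_
  rw [← map_pow, ← map_pow]
  exact hjk

theorem pf_aix : T_A2 → T_XC → T_AIX := by
  intro hA2 hXC L Ω Λ _ _ _ _ _ _ ψ X hcard hX K V _ _ _ ρ W hSys hXfix e q p a h hpair hrel
  classical
  obtain ⟨hind, htop, hW, hne, htrans⟩ := hSys
  obtain ⟨hq, hq5, hqe, hp, hpe, haq, hcomm, hor, ha1, hha, hB⟩ := hpair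
  by_cases hall : ∀ i : Λ, a • i = i
  · exact Or.inl hall
  right
  push Not at hall
  obtain ⟨i, hi⟩ := hall
  have hmul : ∀ (x y : L) (v : V), ρ (x * y) v = ρ x (ρ y v) := by
    intro x y v
    rw [map_mul]
    rfl
  have hone : ∀ v : V, ρ 1 v = v := by
    intro v
    rw [map_one]
    rfl
  obtain ⟨κ, hκ, hκi⟩ : ∃ κ < q, (h * a ^ κ) • i = i := by
    rcases hA2 L Λ K V ρ W hind hW hne q a h hq haq hrel i with h1 | h1
    · exact absurd h1 hi
    · exact h1
  -- the element `h * a ^ κ` acts trivially on `W i`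
  have hx0 : ∀ v ∈ W i, ρ (h * a ^ κ) v = v := by
    intro v hv
    have hr := hrel v
    rw [map_sum] at hr
    have hr' : ∑ j ∈ Finset.range q, ρ (h * a ^ j) v = ∑ j ∈ Finset.range q, ρ (a ^ j) v := by
      rw [← hr]
      refine Finset.sum_congr rfl fun j _ => hmul _ _ _
    rw [← Finset.add_sum_erase _ _ (Finset.mem_range.2 hκ),
      ← Finset.add_sum_erase (Finset.range q) (fun j => ρ (a ^ j) v)
        (Finset.mem_range.2 hq.pos)] at hr'
    rw [pow_zero, hone] at hr'
    have h1 : ∑ j ∈ (Finset.range q).erase κ, ρ (h * a ^ j) v ∈ ⨆ k ≠ i, W k := by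
      refine Submodule.sum_mem _ fun j hj => ?_
      rw [Finset.mem_erase, Finset.mem_range] at hj
      have h2 : (h * a ^ j) • i ≠ i := by
        intro h3
        apply hj.1
        refine pow_inj a q hq haq i hi j κ hj.2 hκ ?_
        have h4 : h • (a ^ j • i) = h • (a ^ κ • i) := by
          rw [← mul_smul, ← mul_smul, h3, hκi]
        exact MulAction.injective h h4
      exact (le_iSup₂_of_le (f := fun k (_ : k ≠ i) => W k) ((h * a ^ j) • i) h2 le_rfl)
        (hW _ _ v hv)
    have h1' : ∑ j ∈ (Finset.range q).erase 0, ρ (a ^ j) v ∈ ⨆ k ≠ i, W k := by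
      refine Submodule.sum_mem _ fun j hj => ?_
      rw [Finset.mem_erase, Finset.mem_range] at hj
      have h2 : (a ^ j) • i ≠ i := by
        intro h3
        apply hj.1
        refine pow_inj a q hq haq i hi j 0 hj.2 hq.pos ?_
        rw [h3, pow_zero, one_smul]
      exact (le_iSup₂_of_le (f := fun k (_ : k ≠ i) => W k) ((a ^ j) • i) h2 le_rfl)
        (hW _ _ v hv)
    have h2 : ρ (h * a ^ κ) v - v = ∑ j ∈ (Finset.range q).erase 0, ρ (a ^ j) v -
        ∑ j ∈ (Finset.range q).erase κ, ρ (h * a ^ j) v := by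
      rw [sub_eq_sub_iff_add_eq_add, hr', add_comm]
    have h3 : ρ (h * a ^ κ) v - v ∈ ⨆ k ≠ i, W k := by
      rw [h2]
      exact Submodule.sub_mem _ h1' h1
    have h4 : ρ (h * a ^ κ) v - v ∈ W i := by
      refine Submodule.sub_mem _ ?_ hv
      have h5 := hW (h * a ^ κ) i v hv
      rw [hκi] at h5
      exact h5
    exact sub_eq_zero.1 ((Submodule.disjoint_def.1 (hind i)) _ h4 h3)
  let C : Subgroup L :=
    { carrier := {x | x • i = i ∧ ∀ v ∈ W i, ρ x v = v}
      mul_mem' := by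
        rintro x y ⟨hx1, hx2⟩ ⟨hy1, hy2⟩
        refine ⟨?_, ?_⟩
        · rw [mul_smul, hy1, hx1]
        · intro v hv
          rw [hmul, hy2 v hv, hx2 v hv]
      one_mem' := ⟨one_smul L i, fun v _ => hone v⟩
      inv_mem' := by
        rintro x ⟨hx1, hx2⟩
        refine ⟨?_, ?_⟩
        · rw [inv_smul_eq_iff, hx1]
        · intro v hv
          have h1 : ρ (x⁻¹ * x) v = v := by rw [inv_mul_cancel]; exact hone v
          rw [hmul, hx2 v hv] at h1
          exact h1 }
  have hCmem : ∀ x : L, x ∈ C ↔ (x • i = i ∧ ∀ v ∈ W i, ρ x v = v) := fun x => Iff.rfl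
  have hXC' : X ≤ C := by
    refine hXC L Ω ψ X hcard hX C ?_ ?_
    · intro x hx c hc
      rw [hCmem] at hc ⊢
      have hxi : x⁻¹ • i = i := hXfix _ (X.inv_mem hx) i
      refine ⟨?_, ?_⟩
      · rw [mul_smul, mul_smul, hxi, hc.1, hXfix x hx]
      · intro v hv
        have h1 : ρ x⁻¹ v ∈ W i := by
          have h2 := hW x⁻¹ i v hv
          rw [hxi] at h2
          exact h2
        rw [hmul, hmul, hc.2 _ h1, ← hmul, mul_inv_cancel, hone]
    · refine ⟨h * a ^ κ, (hCmem _).2 ⟨hκi, hx0⟩, ?_⟩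
      intro hψ1
      have hne' : a ^ κ * h ^ 1 ≠ 1 := by
        intro h1
        apply hha
        rw [pow_one] at h1
        have : h = (a ^ κ)⁻¹ := by
          rw [eq_comm, inv_eq_iff_mul_eq_one]
          exact h1
        rw [this]
        exact Subgroup.inv_mem _ (Subgroup.pow_mem _ (Subgroup.mem_zpowers a) κ)
      have h1 := hB κ 1 hne'
      have hcomm' : a ^ κ * h ^ 1 = h * a ^ κ := by
        rw [pow_one]
        exact (Commute.pow_left (show Commute a h from hcomm) κ)
      rw [hcomm', hψ1] at h1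
      simp at h1
  -- `X` acts trivially on every `W k`
  have hk : ∀ k : Λ, ∀ x ∈ X, ∀ v ∈ W k, ρ x v = v := by
    intro k x hx v hv
    obtain ⟨y, hy⟩ := htrans.exists_smul_eq i k
    have h1 : ρ y⁻¹ v ∈ W i := by
      have h2 := hW y⁻¹ k v hv
      rw [← hy, inv_smul_smul] at h2
      exact h2
    have h2 : y⁻¹ * x * y ∈ X := by
      have := hX.1.conj_mem x hx y⁻¹
      rwa [inv_inv] at this
    have h3 := ((hCmem _).1 (hXC' h2)).2 _ h1
    have h4 : ρ y (ρ (y⁻¹ * x * y) (ρ y⁻¹ v)) = ρ x v := by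
      rw [← hmul, ← hmul]
      congr 2
      group
    rw [← h4, h3, ← hmul, mul_inv_cancel, hone]
  intro x hx v
  let E : V →ₗ[K] V := ρ x - 1
  have hker : (⊤ : Submodule K V) ≤ LinearMap.ker E := by
    rw [← htop]
    refine iSup_le fun k => ?_
    intro w hw
    rw [LinearMap.mem_ker]
    change ρ x w - w = 0
    rw [hk k x hx w hw, sub_self]
  have := hker (Submodule.mem_top (x := v))
  rw [LinearMap.mem_ker] at this
  exact sub_eq_zero.1 this

end Pool.Agent.H94.NZ.AIX
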