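import Pool.Agent.H11.NZ.Targets

/-!
# Module PT of the board nz_modules (MP_9b2842_al)
-/

set_option autoImplicit false

open Equiv (Perm)
open Pool.Agent.H11.NZ
open Pool.Agent.H11.NY

namespace Pool.Agent.H94.NZ.PT

theorem hpair_mono {L Ω : Type} [Group L] [Fintype Ω] [DecidableEq Ω]
    {ψ : L →* alternatingGroup Ω} {e B B' q p : ℕ} {a h : L} (hBB : B' ≤ B)
    (H : HPair ψ e B q p a h) : HPair ψ e B' q p a h := by
  obtain ⟨h1, h2, h3, h4, h5, h6, h7, h8, h9, h10, h11⟩ := H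
  exact ⟨h1, h2, h3, h4, h5, h6, h7, h8, h9, h10, fun i j hij => hBB.trans (h11 i j hij)⟩

theorem card_of_hpair {L Ω : Type} [Group L] [Fintype Ω] [DecidableEq Ω]
    {ψ : L →* alternatingGroup Ω} {e B q p : ℕ} {a h : L}
    (H : HPair ψ e B q p a h) : B ≤ Fintype.card Ω := by
  obtain ⟨-, -, -, -, -, -, -, -, h9, -, h11⟩ := H
  have h1 := h11 1 0 (by simpa using h9)
  exact h1.trans (Finset.card_le_univ _)

/-- restriction of a pair to a subgroup -/
theorem hpair_restrict {L Ω : Type} [Group L] [Fintype Ω] [DecidableEq Ω]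
    {ψ : L →* alternatingGroup Ω} {e B q p : ℕ} {a h : L} (H : HPair ψ e B q p a h)
    (L1 : Subgroup L) (ha : a ∈ L1) (hh : h ∈ L1) :
    HPair (ψ.comp L1.subtype) e B q p (⟨a, ha⟩ : L1) ⟨h, hh⟩ := by
  obtain ⟨h1, h2, h3, h4, h5, h6, h7, h8, h9, h10, h11⟩ := H
  refine ⟨h1, h2, h3, h4, h5, Subtype.ext h6, Subtype.ext h7, ?_, ?_, ?_, ?_⟩
  · rcases h8 with h8 | ⟨h8, h8'⟩
    · exact Or.inl (Subtype.ext h8)
    · exact Or.inr ⟨h8, Subtype.ext h8'⟩
  · intro h12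
    exact h9 (congrArg Subtype.val h12)
  · intro h12
    apply h10
    obtain ⟨k, hk⟩ := Subgroup.mem_zpowers_iff.1 h12
    refine Subgroup.mem_zpowers_iff.2 ⟨k, ?_⟩
    have := congrArg Subtype.val hk
    simpa using this
  · intro i j hij
    have h12 : a ^ i * h ^ j ≠ 1 := by
      intro h13
      exact hij (Subtype.ext h13)
    exact h11 i j h12

theorem sch_restrict {L : Type} [Group L] (K : Subgroup L) (hK : Sch K) (L1 : Subgroup L)
    (K1 : Subgroup L1) (h1 : K1.map L1.subtype ≤ K) : Sch K1 := by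
  intro T _ hT A f hA hf
  obtain ⟨E, hE⟩ : ∃ E : A ≃* (A.map L1.subtype), E =
    A.equivMapOfInjective L1.subtype L1.subtype_injective := ⟨_, rfl⟩
  refine hK T hT (A.map L1.subtype) (f.comp E.symm.toMonoidHom) ?_ ?_
  · exact (Subgroup.map_mono hA).trans h1
  · intro t
    obtain ⟨x, hx⟩ := hf t
    refine ⟨E x, ?_⟩
    rw [MonoidHom.comp_apply]
    simp [hx]

theorem pf_pt : T_XS → T_OF → T_PTA → T_PTN → T_PTR → T_PTK → T_PT := by
  intro hXS hOF hPTA hPTN hPTR hPTK e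
  obtain ⟨B1, hB1⟩ := hPTN e
  obtain ⟨B2, hB2⟩ := hPTR e
  obtain ⟨B3, hB3⟩ := hPTK e
  obtain ⟨B, hB⟩ : ∃ B, B = B1 + B2 + B3 + 6 := ⟨_, rfl⟩
  refine ⟨B, ?_⟩
  intro L Ω _ _ _ _ ψ X hX hSch S hXS' hpairs
  -- cardinality
  have hcard : 5 ≤ Fintype.card Ω := by
    obtain ⟨q, p, a, h, -, h1, -⟩ := hpairs 2 Nat.prime_two
    have := card_of_hpair h1
    omega
  obtain ⟨L1, hL1⟩ : ∃ L1 : Subgroup L, L1 = X ⊔ S := ⟨_, rfl⟩
  have hXL : X ≤ L1 := by rw [hL1]; exact le_sup_left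
  have hSL : S ≤ L1 := by rw [hL1]; exact le_sup_right
  obtain ⟨hX1, -⟩ := hXS L Ω ψ X L1 hXL hX
  obtain ⟨ψ1, hψ1⟩ : ∃ ψ1 : L1 →* alternatingGroup Ω, ψ1 = ψ.comp L1.subtype := ⟨_, rfl⟩
  obtain ⟨X1, hX1d⟩ : ∃ X1 : Subgroup L1, X1 = X.subgroupOf L1 := ⟨_, rfl⟩
  obtain ⟨S1, hS1d⟩ : ∃ S1 : Subgroup L1, S1 = S.subgroupOf L1 := ⟨_, rfl⟩
  have hψ1a : ∀ x : L1, ψ1 x = ψ (x : L) := by
    intro x
    rw [hψ1]
    rfl
  rw [← hψ1, ← hX1d] at hX1
  have hXSt : X1 ⊔ S1 = ⊤ := by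
    rw [hX1d, hS1d, ← Subgroup.subgroupOf_sup hXL hSL, ← hL1, Subgroup.subgroupOf_self]
  have hS1 : S1 ≠ ⊤ := by
    intro h1
    apply hXS'
    intro x hx
    have h2 : (⟨x, hXL hx⟩ : L1) ∈ S1 := by rw [h1]; exact Subgroup.mem_top _
    rw [hS1d, Subgroup.mem_subgroupOf] at h2
    exact h2
  obtain ⟨M, hM, hSM⟩ : ∃ M : Subgroup L1, IsCoatom M ∧ S1 ≤ M := by
    rcases eq_top_or_exists_le_coatom S1 with h1 | h1
    · exact absurd h1 hS1
    · exact h1
  have hXM : ¬ X1 ≤ M := by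
    intro h1
    apply hM.1
    rw [eq_top_iff, ← hXSt]
    exact sup_le h1 hSM
  have hSch1 : Sch (ψ1.ker ⊓ X1) := by
    refine sch_restrict (ψ.ker ⊓ X) hSch L1 _ ?_
    rintro _ ⟨x, hx, rfl⟩
    refine ⟨?_, ?_⟩
    · have h1 : ψ1 x = 1 := hx.1
      rw [hψ1a] at h1
      exact h1
    · have h1 : x ∈ X1 := hx.2
      rw [hX1d, Subgroup.mem_subgroupOf] at h1
      exact h1
  -- the pairs in `L1`
  have hpairs1 : ∀ r : ℕ, r.Prime → ∃ (q p : ℕ) (a h : L1), q ≠ r ∧ HPair ψ1 e B q p a h ∧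
      TCS q a h M := by
    intro r hr
    obtain ⟨q, p, a, h, hqr, hp, ht⟩ := hpairs r hr
    obtain ⟨ha, hh⟩ := hOF L Ω ψ X hcard hX S hXS' e q p a h (hpair_mono (by omega) hp) ht 1
    have ha' : a ∈ L1 := by rw [hL1]; simpa using ha
    have hh' : h ∈ L1 := by rw [hL1]; simpa using hh
    refine ⟨q, p, ⟨a, ha'⟩, ⟨h, hh'⟩, hqr, ?_, ?_⟩
    · rw [hψ1]
      exact hpair_restrict hp L1 ha' hh'
    · intro y
      rcases ht (y : L) with h1 | ⟨κ, hκ, h1⟩
      · left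
        apply hSM
        rw [hS1d, Subgroup.mem_subgroupOf]
        exact h1
      · right
        refine ⟨κ, hκ, ?_⟩
        apply hSM
        rw [hS1d, Subgroup.mem_subgroupOf]
        exact h1
  obtain ⟨q, p, a, h, -, hp, ht⟩ := hpairs1 2 Nat.prime_two
  by_cases hKX : ψ1.ker ⊓ X1 ≤ M
  · by_cases hK : ψ1.ker ≤ M
    · -- the kernel is in `M`
      obtain ⟨ω, hω⟩ := hB3 L1 Ω ψ1 X1 hX1 M hXM hK q p a h (hpair_mono (by omega) hp) ht
      refine ⟨ω, fun y hy => ?_⟩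
      have h1 : (⟨y, hSL hy⟩ : L1) ∈ M := by
        apply hSM
        rw [hS1d, Subgroup.mem_subgroupOf]
        exact hy
      have h2 := hω _ h1
      rw [hψ1a] at h2
      exact h2
    · exfalso
      refine hB2 L1 Ω ψ1 X1 hX1 M hXM hKX ?_ q p a h (hpair_mono (by omega) hp) ht
      rw [sup_comm]
      apply hM.2
      exact left_lt_sup.2 hK
  · exfalso
    obtain ⟨A, hA⟩ : ∃ A : Subgroup L1,
        Minimal (fun A : Subgroup L1 => A.Normal ∧ A ≤ ψ1.ker ⊓ X1 ∧ ¬ A ≤ M) A := by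
      apply exists_minimal_of_wellFoundedLT
      refine ⟨ψ1.ker ⊓ X1, ?_, le_rfl, hKX⟩
      have := hX1.1
      infer_instance
    obtain ⟨⟨hAn, hAK, hAM⟩, hAmin⟩ := hA
    have hAmin' : ∀ A' : Subgroup L1, A'.Normal → A' ≤ A → A' ≤ M ∨ A' = A := by
      intro A' hA'n hA'A
      by_cases h1 : A' ≤ M
      · exact Or.inl h1
      · right
        exact le_antisymm hA'A (hAmin ⟨hA'n, hA'A.trans hAK, h1⟩ hA'A)
    by_cases hAA : ⁅A, A⁆ = A
    · exact hB1 L1 Ω ψ1 X1 hX1 hSch1 M A hM hXM hAn hAK hAM hAA hAmin' q p a h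
        (hpair_mono (by omega) hp) ht
    · have hcn : ⁅A, A⁆.Normal := Subgroup.commutator_normal A A
      have hcA : ⁅A, A⁆ ≤ A := Subgroup.commutator_le_left A A
      have hcM : ⁅A, A⁆ ≤ M := by
        rcases hAmin' _ hcn hcA with h1 | h1
        · exact h1
        · exact absurd h1 hAA
      have hcC : ⁅A, A⁆ ≤ M.normalCore := Subgroup.normal_le_normalCore.2 hcM
      have hC0n : M.normalCore.Normal := Subgroup.normalCore_normal M
      have hmemA2 : ∀ x : L1, x ∈ A ⊔ M.normalCore → ∃ y ∈ A, ∃ z ∈ M.normalCore, y * z = x := by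
        intro x hx
        exact Subgroup.mem_sup_of_normal_right.1 hx
      refine hPTA L1 Ω ψ1 X1 hcard hX1 M (A ⊔ M.normalCore) hM hXM (Subgroup.sup_normal _ _)
        le_sup_right (fun h1 => hAM (le_sup_left.trans h1)) ?_ ?_ e ?_
      · intro x hx y hy
        obtain ⟨x1, hx1, x2, hx2, rfl⟩ := hmemA2 x hx
        obtain ⟨y1, hy1, y2, hy2, rfl⟩ := hmemA2 y hy
        rw [← QuotientGroup.eq_one_iff (N := M.normalCore)]
        have h2 : ((x2 : L1) : L1 ⧸ M.normalCore) = 1 := (QuotientGroup.eq_one_iff _).2 hx2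
        have h3 : ((y2 : L1) : L1 ⧸ M.normalCore) = 1 := (QuotientGroup.eq_one_iff _).2 hy2
        have h4 : ((x1 * y1 * x1⁻¹ * y1⁻¹ : L1) : L1 ⧸ M.normalCore) = 1 := by
          rw [QuotientGroup.eq_one_iff]
          exact hcC (Subgroup.commutator_mem_commutator hx1 hy1)
        rw [← h4]
        simp only [QuotientGroup.mk_mul, QuotientGroup.mk_inv, h2, h3, mul_one]
      · intro A' hA'n hCA' hA'A
        have h1 : (A' ⊓ A).Normal := by
          have := hA'n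
          have := hAn
          infer_instance
        rcases hAmin' _ h1 inf_le_right with h2 | h2
        · left
          apply le_antisymm _ hCA'
          intro x hx
          obtain ⟨x1, hx1, x2, hx2, rfl⟩ := hmemA2 x (hA'A hx)
          have h3 : x1 ∈ A' := by
            have := A'.mul_mem hx (A'.inv_mem (hCA' hx2))
            simpa using this
          have h4 : A' ⊓ A ≤ M.normalCore := Subgroup.normal_le_normalCore.2 h2
          exact M.normalCore.mul_mem (h4 ⟨h3, hx1⟩) hx2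
        · right
          apply le_antisymm hA'A
          refine sup_le ?_ hCA'
          rw [← h2]
          exact inf_le_left
      · intro r hr
        obtain ⟨q, p, a, h, hqr, hp, ht⟩ := hpairs1 r hr
        exact ⟨q, p, a, h, hqr, hpair_mono (by omega) hp, ht⟩

end Pool.Agent.H94.NZ.PT
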